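import Pool.Agent.V11202.KS.Main

set_option autoImplicit false

open scoped ContDiff
open Pool.Agent.V11202.CK Pool.Agent.V11202.KS

namespace Pool.Agent.Results.MP_9d59e9_gt.KSProduct

/-- The Riemannian metric `gE = e^{-s} ds² + e^{3s} dθ² + dw² + e^{2w} du²` on `ℝ⁴` is a `KS₄`
metric of order `3` (with `t^{(1)} = -2 ds`, `t^{(2)} = t^{(3)} = 0`), but `∇R` vanishes nowhere.
Moreover at no point is `∇^r R` of the form `t ⊗ R` for `r = 1, 2, 3`, and the Ricci curvature is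
negative definite. -/
theorem result :
    IsRiem gE ∧ IsKS gE 3 tE ∧ (∀ x, nab gE 1 0 [0, 1, 0, 1] x ≠ 0) ∧
    (∀ x, ¬ ∃ t : Fin 4 → ℝ, ∀ (α l : Fin 4) (I : List (Fin 4)),
      I.length = 3 → nab gE 1 α (l :: I) x = t l * nab gE 0 α I x) ∧
    (∀ x, ¬ ∃ t : Fin 4 → Fin 4 → ℝ, ∀ (α l m : Fin 4) (I : List (Fin 4)),
      I.length = 3 → nab gE 2 α (l :: m :: I) x = t l m * nab gE 0 α I x) ∧
    (∀ x, ¬ ∃ t : Fin 4 → Fin 4 → Fin 4 → ℝ, ∀ (α l m k : Fin 4) (I : List (Fin 4)),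
      I.length = 3 → nab gE 3 α (l :: m :: k :: I) x = t l m k * nab gE 0 α I x) ∧
    (∀ x v : Eu 4, v ≠ 0 → ∑ β, ∑ ν, (∑ α, Riem gE α β α ν x) * (v β * v ν) < 0) :=
  ⟨gE_riem, gE_KS, nab1_ne, not_rec1, not_rec2, not_rec3, Ric_neg⟩

end Pool.Agent.Results.MP_9d59e9_gt.KSProduct
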